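import Mathlib

open MvPolynomial

namespace Pool.Agent.MP_dd1803_nt.Tr

/-- More polynomials than variables are algebraically dependent. -/
theorem exists_rel {σ ι : Type} [Fintype σ] [Fintype ι] (h : Fintype.card σ < Fintype.card ι)
    (f : ι → MvPolynomial σ ℚ) : ∃ P : MvPolynomial ι ℚ, P ≠ 0 ∧ aeval f P = 0 := by
  by_contra hcon
  push Not at hcon
  have h1 : AlgebraicIndependent ℚ f := by
    rw [algebraicIndependent_iff]
    intro p hp
    by_contra hne
    exact hcon p hne hp
  have h2 := h1.cardinalMk_le_trdeg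
  rw [MvPolynomial.trdeg_of_isDomain] at h2
  simp only [Cardinal.lift_id, Cardinal.mk_fintype, Nat.cast_le] at h2
  omega

/-- A subspace of dimension at most `r` is contained in a graph over `r` coordinates. -/
theorem exists_chart {κ : Type} [Fintype κ] [DecidableEq κ] {r : ℕ} (hr : r ≤ Fintype.card κ)
    (U : Submodule ℚ (κ → ℚ)) (hU : Module.finrank ℚ U ≤ r) :
    ∃ J : Finset κ, J.card = r ∧ ∃ A : κ → κ → ℚ, ∀ u ∈ U, ∀ k, u k = ∑ i ∈ J, A k i * u i := by
  classical
  let v : κ → (U →ₗ[ℚ] ℚ) := fun k => (LinearMap.proj k).comp U.subtype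
  obtain ⟨b, hbsub, hspan, hli⟩ := exists_linearIndependent ℚ (Set.range v)
  have hfin : b.Finite := (Set.finite_range v).subset hbsub
  have hcard : b.ncard ≤ r := by
    have := hfin.fintype
    have h1 := hli.fintype_card_le_finrank
    have h2 : Module.finrank ℚ (U →ₗ[ℚ] ℚ) = Module.finrank ℚ U := Subspace.dual_finrank_eq
    rw [h2] at h1
    rw [← Nat.card_coe_set_eq]
    rw [← Nat.card_eq_fintype_card] at h1
    exact h1.trans hU
  -- choose preimages
  have hex : ∀ x : b, ∃ k, v k = x.1 := fun x => hbsub x.2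
  choose g hg using hex
  have := hfin.fintype
  let J0 : Finset κ := Finset.univ.image g
  have hJ0 : J0.card ≤ r := by
    refine Finset.card_image_le.trans ?_
    rw [Finset.card_univ, ← Nat.card_eq_fintype_card, Nat.card_coe_set_eq]
    exact hcard
  obtain ⟨J, hJJ, hJc⟩ := Finset.exists_superset_card_eq hJ0 hr
  refine ⟨J, hJc, ?_⟩
  have hmem : ∀ k, v k ∈ Submodule.span ℚ (v '' (J : Set κ)) := by
    intro k
    have h1 : v k ∈ Submodule.span ℚ (Set.range v) := Submodule.subset_span ⟨k, rfl⟩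
    rw [← hspan] at h1
    refine Submodule.span_mono ?_ h1
    intro x hx
    refine ⟨g ⟨x, hx⟩, ?_, hg ⟨x, hx⟩⟩
    exact hJJ (Finset.mem_image_of_mem _ (Finset.mem_univ _))
  have hex2 : ∀ k, ∃ c : κ → ℚ, ∑ i ∈ J, c i • v i = v k := by
    intro k
    have h1 := hmem k
    rw [Submodule.mem_span_image_finset_iff_exists_fun] at h1
    obtain ⟨c, hc⟩ := h1
    refine ⟨fun i => if hi : i ∈ J then c ⟨i, hi⟩ else 0, ?_⟩
    rw [← hc, ← Finset.sum_coe_sort J]
    refine Finset.sum_congr rfl fun i _ => ?_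
    beta_reduce
    rw [dif_pos i.2]
  choose A hA using hex2
  refine ⟨A, fun u hu k => ?_⟩
  have h1 := LinearMap.congr_fun (hA k) ⟨u, hu⟩
  rw [LinearMap.sum_apply] at h1
  simp only [LinearMap.smul_apply, smul_eq_mul] at h1
  exact h1.symm

/-- A subspace of dimension at most `d` is the image of a linear map from `ℚ ^ d`. -/
theorem exists_param {κ : Type} [Fintype κ] {d : ℕ} (E : Submodule ℚ (κ → ℚ))
    (hE : Module.finrank ℚ E ≤ d) :
    ∃ B : κ → Fin d → ℚ, ∀ q ∈ E, ∃ t : Fin d → ℚ, ∀ k, q k = ∑ l, B k l * t l := by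
  classical
  let b := Module.finBasis ℚ E
  refine ⟨fun k l => if h : l.1 < Module.finrank ℚ E then (b ⟨l.1, h⟩ : κ → ℚ) k else 0, ?_⟩
  intro q hq
  refine ⟨fun l => if h : l.1 < Module.finrank ℚ E then b.repr ⟨q, hq⟩ ⟨l.1, h⟩ else 0, ?_⟩
  intro k
  have h1 := b.sum_repr ⟨q, hq⟩
  have h2 : q k = ∑ i, b.repr ⟨q, hq⟩ i * (b i : κ → ℚ) k := by
    have h3 := congrArg (fun x : E => (x : κ → ℚ) k) h1
    simp only [Submodule.coe_sum, Submodule.coe_smul, Finset.sum_apply, Pi.smul_apply,
      smul_eq_mul] at h3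
    exact h3.symm
  rw [h2]
  -- compare the sums
  have h4 : ∑ l : Fin d, (if h : l.1 < Module.finrank ℚ E then (b ⟨l.1, h⟩ : κ → ℚ) k else 0) *
      (if h : l.1 < Module.finrank ℚ E then b.repr ⟨q, hq⟩ ⟨l.1, h⟩ else 0) =
      ∑ i : Fin (Module.finrank ℚ E), b.repr ⟨q, hq⟩ i * (b i : κ → ℚ) k := by
    symm
    refine Finset.sum_bij_ne_zero (fun i _ _ => (⟨i.1, lt_of_lt_of_le i.2 hE⟩ : Fin d)) ?_ ?_ ?_ ?_
    · intro i _ _
      exact Finset.mem_univ _
    · intro i _ _ i' _ _ h
      exact Fin.ext (by simpa using congrArg Fin.val h)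
    · intro l _ hl
      by_cases hlt : l.1 < Module.finrank ℚ E
      · refine ⟨⟨l.1, hlt⟩, Finset.mem_univ _, ?_, rfl⟩
        rw [dif_pos hlt, dif_pos hlt, mul_comm] at hl
        exact hl
      · rw [dif_neg hlt, zero_mul] at hl
        exact absurd rfl hl
    · intro i _ _
      rw [dif_pos i.2, dif_pos i.2, mul_comm]
  exact h4.symm

/-- If any `d + 1` coordinates satisfy a nontrivial linear relation on `E`, then `E` has
dimension at most `d`. -/
theorem finrank_le_of_rel {κ : Type} [Fintype κ] [DecidableEq κ] {d : ℕ}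
    (E : Submodule ℚ (κ → ℚ))
    (h : ∀ I : Finset κ, I.card = d + 1 → ∃ a : κ → ℚ, (∃ i ∈ I, a i ≠ 0) ∧
      ∀ q ∈ E, ∑ i ∈ I, a i * q i = 0) : Module.finrank ℚ E ≤ d := by
  classical
  by_contra hcon
  push Not at hcon
  let v : κ → (E →ₗ[ℚ] ℚ) := fun k => (LinearMap.proj k).comp E.subtype
  obtain ⟨b, hbsub, hspan, hli⟩ := exists_linearIndependent ℚ (Set.range v)
  have htop : Submodule.span ℚ (Set.range v) = ⊤ := by
    have h1 : (Submodule.span ℚ (Set.range v)).dualCoannihilator = ⊥ := by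
      rw [eq_bot_iff]
      intro x hx
      rw [Submodule.mem_dualCoannihilator] at hx
      rw [Submodule.mem_bot]
      apply Subtype.ext
      funext k
      exact hx (v k) (Submodule.subset_span ⟨k, rfl⟩)
    have h2 := Subspace.dualCoannihilator_dualAnnihilator_eq (W := Submodule.span ℚ (Set.range v))
    rw [← h2, h1, Submodule.dualAnnihilator_bot]
  have hfin : b.Finite := (Set.finite_range v).subset hbsub
  have := hfin.fintype
  have hcard : Fintype.card b = Module.finrank ℚ E := by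
    have h1 := finrank_span_eq_card hli
    rw [Subtype.range_coe, hspan, htop, finrank_top] at h1
    rw [← h1]
    exact Subspace.dual_finrank_eq
  have hex : ∀ x : b, ∃ k, v k = x.1 := fun x => hbsub x.2
  choose g hg using hex
  have hginj : Function.Injective g := by
    intro x y hxy
    apply Subtype.ext
    rw [← hg x, ← hg y, hxy]
  let J0 : Finset κ := Finset.univ.image g
  have hJ0 : d + 1 ≤ J0.card := by
    rw [Finset.card_image_of_injective _ hginj, Finset.card_univ, hcard]
    omega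
  obtain ⟨I, hIJ, hIc⟩ := Finset.exists_subset_card_eq hJ0
  obtain ⟨a, ⟨i0, hi0, hai0⟩, ha⟩ := h I hIc
  have hsum : ∑ i ∈ I, a i • v i = 0 := by
    apply LinearMap.ext
    intro x
    rw [LinearMap.sum_apply]
    simp only [LinearMap.smul_apply, smul_eq_mul, LinearMap.zero_apply]
    exact ha x.1 x.2
  have hliv : LinearIndepOn ℚ v (J0 : Set κ) := by
    have h1 : LinearIndependent ℚ (fun x : b => v (g x)) := by
      have h2 : (fun x : b => v (g x)) = (fun x : b => (x : E →ₗ[ℚ] ℚ)) := funext hg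
      rw [h2]
      exact hli
    have h3 := (linearIndepOn_range_iff hginj (R := ℚ) (g := v)).mpr h1
    have h4 : (J0 : Set κ) = Set.range g := by
      simp [J0]
    rw [h4]
    exact h3
  have h5 := (linearIndepOn_finset_iff (s := I)).mp (hliv.mono (by exact_mod_cast hIJ)) a hsum i0 hi0
  exact hai0 h5

end Pool.Agent.MP_dd1803_nt.Tr
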