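import Mathlib
import Pool.Agent.MP_dd1803_nt.Interface
import Pool.Agent.MP_dd1803_nt.Fibre

open MvPolynomial

namespace Pool.Agent.MP_dd1803_nt.Tr

variable {F : Type} [Field F] {κ : Type}

theorem infinite_tor [IsAlgClosed F] [CharZero F] :
    {q : F | ∃ c : Fˣ, Tor c ∧ (c : F) = q}.Infinite := by
  have h1 : ∀ n : ℕ, ∃ ζ : F, IsPrimitiveRoot ζ (n + 1) := by
    intro n
    have : NeZero ((n + 1 : ℕ) : F) := ⟨Nat.cast_ne_zero.mpr (Nat.succ_ne_zero n)⟩
    exact HasEnoughRootsOfUnity.exists_primitiveRoot F (n + 1)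
  choose ζ hζ using h1
  have hinj : Function.Injective ζ := by
    intro m n h
    have h2 := (hζ m).unique (h ▸ hζ n)
    omega
  refine Set.Infinite.mono ?_ (Set.infinite_range_of_injective hinj)
  rintro _ ⟨n, rfl⟩
  refine ⟨(hζ n).isUnit (Nat.succ_ne_zero n) |>.unit, ⟨n + 1, Nat.succ_pos n, ?_⟩, rfl⟩
  apply Units.ext
  rw [Units.val_pow_eq_pow_val]
  exact (hζ n).pow_eq_one

theorem ch_single' [Fintype κ] [DecidableEq κ] (i : κ) (x : κ → Fˣ) :
    ch (Pi.single i 1) x = x i := by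
  rw [ch_single, zpow_one]

/-- Every irreducible closed set contains a point satisfying many multiplicative relations. -/
theorem exists_point [IsAlgClosed F] [CharZero F] [Fintype κ] {X : Set (κ → Fˣ)} (hX : Irr X) :
    ∃ x ∈ X, cd X ≤ rk {x} := by
  classical
  induction hn : td F X using Nat.strong_induction_on generalizing X with
  | _ n ih =>
    by_cases hc : ∀ i, ∃ c : Fˣ, ∀ x ∈ X, x i = c
    · choose c hc using hc
      obtain ⟨x, hx⟩ := hX.nonempty
      refine ⟨x, hx, ?_⟩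
      have h1 : X = {x} := by
        apply Set.Subset.antisymm
        · intro y hy
          rw [Set.mem_singleton_iff]
          funext i
          rw [hc i y hy, hc i x hx]
        · rintro _ rfl
          exact hx
      have h2 : td F X = 0 := by
        obtain ⟨s, hs, hcard⟩ := exists_basis' (k := F) hX.pirr
        rw [← hcard, Set.ncard_eq_zero (Set.toFinite s)]
        by_contra hne
        obtain ⟨i, hi⟩ := Set.nonempty_iff_ne_empty.mpr hne
        have h1 := hs (MvPolynomial.X ⟨i, hi⟩ - C (x i : F)) (by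
          intro y hy
          rw [map_sub, aeval_X, aeval_C, sub_eq_zero, co_apply]
          rw [hc i y hy, hc i x hx]
          rfl)
        have h2 := congrArg (aeval (fun _ : s => (x i : F) + 1)) h1
        rw [map_sub, aeval_X, aeval_C, map_zero] at h2
        simp at h2
      unfold cd
      rw [h2, add_zero]
      rw [← h1]
    · push Not at hc
      obtain ⟨i, hi⟩ := hc
      have h1 : ∃ q ∈ {q : F | ∃ c : Fˣ, Tor c ∧ (c : F) = q}, ∃ x ∈ X, (x i : F) = q := by
        by_contra hcon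
        push Not at hcon
        obtain ⟨c, hc⟩ := exists_fibre hX i _ infinite_tor hcon
        obtain ⟨x, hx, hne⟩ := hi c
        exact hne (hc x hx)
      obtain ⟨q, ⟨c, hc, hcq⟩, x, hx, hxq⟩ := h1
      have hxc : x i = c := Units.ext (hxq.trans hcq.symm)
      have hcl : ZClosed (X ∩ {y : κ → Fˣ | ch (Pi.single i 1) y = c}) :=
        hX.closed.inter (zclosed_ch _ _)
      obtain ⟨Y, hY, hxY⟩ := exists_comp_mem hcl (x := x) ⟨hx, by
        show ch (Pi.single i 1) x = c
        rw [ch_single', hxc]⟩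
      have h2 : cd X ≤ cd Y := cut_one hX hc hY
      have h3 : Y ⊂ X := by
        refine ⟨hY.subset.trans Set.inter_subset_left, ?_⟩
        intro h4
        obtain ⟨z, hz, hne⟩ := hi c
        apply hne
        have h5 := (hY.subset (h4 hz)).2
        rw [Set.mem_ofPred_eq, ch_single'] at h5
        exact h5
      have h4 := td_lt hY.irr hX h3
      obtain ⟨z, hz, hz'⟩ := ih (td F Y) (by omega) hY.irr rfl
      exact ⟨z, h3.1 hz, h2.trans hz'⟩

/-- Translation by `g`. -/
def tr (g : κ → Fˣ) (x : κ → Fˣ) : κ → Fˣ := fun i => g i * x i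

theorem tr_inv_tr (g x : κ → Fˣ) : tr (fun i => (g i)⁻¹) (tr g x) = x := by
  funext i
  simp [tr]

theorem tr_tr_inv (g x : κ → Fˣ) : tr g (tr (fun i => (g i)⁻¹) x) = x := by
  funext i
  simp [tr]

theorem image_tr (g : κ → Fˣ) (X : Set (κ → Fˣ)) :
    tr g '' X = tr (fun i => (g i)⁻¹) ⁻¹' X := by
  ext x
  constructor
  · rintro ⟨y, hy, rfl⟩
    show tr _ (tr g y) ∈ X
    rw [tr_inv_tr]
    exact hy
  · intro hx
    exact ⟨_, hx, tr_tr_inv g x⟩

theorem zclosed_preimage_tr (g : κ → Fˣ) {X : Set (κ → Fˣ)} (hX : ZClosed X) :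
    ZClosed (tr g ⁻¹' X) := by
  obtain ⟨S, hS⟩ := hX
  refine ⟨(fun p => bind₁ (fun i => C (g i : F) * MvPolynomial.X i) p) '' S, ?_⟩
  ext x
  rw [Set.mem_preimage, hS]
  simp only [Set.mem_ofPred_eq, Set.forall_mem_image]
  refine forall₂_congr fun p _ => ?_
  have h1 : eval (fun i => (x i : F)) (bind₁ (fun i => C (g i : F) * MvPolynomial.X i) p) =
      eval (fun i => (tr g x i : F)) p := by
    rw [← MvPolynomial.coe_aeval_eq_eval, ← MvPolynomial.coe_aeval_eq_eval]
    simp only [RingHom.coe_coe]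
    rw [aeval_bind₁]
    congr 1
    congr 1
    funext i
    simp [tr]
  rw [h1]

theorem zclosed_image_tr (g : κ → Fˣ) {X : Set (κ → Fˣ)} (hX : ZClosed X) :
    ZClosed (tr g '' X) := by
  rw [image_tr]
  exact zclosed_preimage_tr _ hX

theorem irr_image_tr (g : κ → Fˣ) {X : Set (κ → Fˣ)} (hX : Irr X) : Irr (tr g '' X) := by
  refine ⟨zclosed_image_tr g hX.closed, hX.nonempty.image _, ?_⟩
  intro A B hA hB h
  have h1 : X ⊆ tr g ⁻¹' A ∪ tr g ⁻¹' B := by
    intro x hx
    exact h ⟨x, hx, rfl⟩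
  rcases hX.subset_or (zclosed_preimage_tr g hA) (zclosed_preimage_tr g hB) h1 with h2 | h2
  · left
    rintro _ ⟨x, hx, rfl⟩
    exact h2 hx
  · right
    rintro _ ⟨x, hx, rfl⟩
    exact h2 hx

theorem dm_image_tr (g : κ → Fˣ) (V : Set (κ → Fˣ)) : dm (tr g '' V) = dm V := by
  unfold dm
  apply Order.krullDim_eq_of_orderIso
  refine
    { toFun := fun Y => ⟨tr (fun i => (g i)⁻¹) '' Y.1, irr_image_tr _ Y.2.1, ?_⟩
      invFun := fun Y => ⟨tr g '' Y.1, irr_image_tr _ Y.2.1, Set.image_mono Y.2.2⟩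
      left_inv := ?_
      right_inv := ?_
      map_rel_iff' := ?_ }
  · rintro _ ⟨y, hy, rfl⟩
    obtain ⟨z, hz, rfl⟩ := Y.2.2 hy
    rw [tr_inv_tr]
    exact hz
  · intro Y
    apply Subtype.ext
    show tr g '' (tr (fun i => (g i)⁻¹) '' Y.1) = Y.1
    rw [Set.image_image]
    simp only [tr_tr_inv, Set.image_id']
  · intro Y
    apply Subtype.ext
    show tr (fun i => (g i)⁻¹) '' (tr g '' Y.1) = Y.1
    rw [Set.image_image]
    simp only [tr_inv_tr, Set.image_id']
  · intro Y Z
    show tr (fun i => (g i)⁻¹) '' Y.1 ⊆ tr (fun i => (g i)⁻¹) '' Z.1 ↔ Y.1 ⊆ Z.1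
    constructor
    · intro h x hx
      obtain ⟨z, hz, hzx⟩ := h ⟨x, hx, rfl⟩
      have h1 := congrArg (tr g) hzx
      rw [tr_tr_inv, tr_tr_inv] at h1
      exact h1 ▸ hz
    · intro h
      exact Set.image_mono h

end Pool.Agent.MP_dd1803_nt.Tr
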