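import Mathlib
import Pool.Agent.MP_dd1803_nt.Tr.Lin

open MvPolynomial

namespace Pool.Agent.MP_dd1803_nt.Tr

variable {κ : Type} [Fintype κ] [DecidableEq κ]

/-- The polynomial for a fixed chart and fixed parametrised affine spaces. -/
theorem exists_poly_chart {d s : ℕ} (hd : d + 1 ≤ Fintype.card κ)
    (hs : (d + 1) * (Fintype.card κ - d - 1) < s) (J : Finset κ)
    (hJ : J.card = Fintype.card κ - d - 1) (q0 : Fin s → κ → ℚ) (B : Fin s → κ → Fin d → ℚ) :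
    ∃ P : MvPolynomial (Fin s × κ) ℚ, P ≠ 0 ∧ ∀ y : Fin s × κ → ℚ,
      (∃ A : κ → κ → ℚ, ∃ w : Fin s → κ → ℚ, ∃ t : Fin s → Fin d → ℚ,
        (∀ j, ∀ k ∉ J, w j k = ∑ i ∈ J, A k i * w j i) ∧
        ∀ j k, y (j, k) = w j k - q0 j k - ∑ l, B j k l * t j l) → eval y P = 0 := by
  classical
  let σ : Type := ({k // k ∉ J} × {i // i ∈ J}) ⊕ ((Fin s × {i // i ∈ J}) ⊕ (Fin s × Fin d))
  let f : Fin s × κ → MvPolynomial σ ℚ := fun jk =>
    (if h : jk.2 ∈ J then X (Sum.inr (Sum.inl (jk.1, ⟨jk.2, h⟩))) else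
      ∑ i : {i // i ∈ J}, X (Sum.inl (⟨jk.2, h⟩, i)) * X (Sum.inr (Sum.inl (jk.1, i)))) -
    C (q0 jk.1 jk.2) - ∑ l, C (B jk.1 jk.2 l) * X (Sum.inr (Sum.inr (jk.1, l)))
  have hcard : Fintype.card σ < Fintype.card (Fin s × κ) := by
    simp only [σ, Fintype.card_sum, Fintype.card_prod, Fintype.card_fin, Fintype.card_coe, hJ]
    have h1 : Fintype.card {k // k ∉ J} = d + 1 := by
      rw [Fintype.card_subtype_compl, Fintype.card_coe, hJ]
      omega
    rw [h1]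
    obtain ⟨r, hr⟩ : ∃ r, Fintype.card κ = r + (d + 1) := ⟨Fintype.card κ - (d + 1), by omega⟩
    have h2 : Fintype.card κ - d - 1 = r := by omega
    rw [h2] at hs ⊢
    rw [hr]
    nlinarith
  obtain ⟨P, hP, hP0⟩ := exists_rel hcard f
  refine ⟨P, hP, ?_⟩
  rintro y ⟨A, w, t, hw, hy⟩
  let x : σ → ℚ := Sum.elim (fun ki => A ki.1 ki.2)
    (Sum.elim (fun ji => w ji.1 ji.2) (fun jl => t jl.1 jl.2))
  have h1 : y = fun jk => eval x (f jk) := by
    funext jk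
    obtain ⟨j, k⟩ := jk
    rw [hy j k]
    simp only [f, map_sub, map_sum, map_mul, eval_C]
    by_cases hk : k ∈ J
    · rw [dif_pos hk]
      simp [x]
    · rw [dif_neg hk]
      simp only [map_sum, map_mul, eval_X, x, Sum.elim_inl, Sum.elim_inr]
      rw [hw j k hk, ← Finset.sum_coe_sort J]
  have h2 : eval x (aeval f P) = eval (fun jk => eval x (f jk)) P := by
    have h3 : (eval x).comp (algebraMap ℚ (MvPolynomial σ ℚ)) = RingHom.id ℚ :=
      Subsingleton.elim _ _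
    rw [aeval_def, eval_eval₂, h3]
    rfl
  rw [h1, ← h2, hP0, map_zero]

/-- The polynomial for fixed affine spaces. -/
theorem exists_poly_affine {d s : ℕ} (hd : d + 1 ≤ Fintype.card κ)
    (hs : (d + 1) * (Fintype.card κ - d - 1) < s) (q0 : Fin s → κ → ℚ)
    (E : Fin s → Submodule ℚ (κ → ℚ)) (hE : ∀ j, Module.finrank ℚ (E j) ≤ d) :
    ∃ P : MvPolynomial (Fin s × κ) ℚ, P ≠ 0 ∧ ∀ y : Fin s × κ → ℚ,
      (∃ U : Submodule ℚ (κ → ℚ), Module.finrank ℚ U ≤ Fintype.card κ - d - 1 ∧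
        ∀ j, ∃ u ∈ U, ∃ q ∈ E j, ∀ k, y (j, k) = u k - q0 j k - q k) → eval y P = 0 := by
  classical
  have h1 : ∀ j, ∃ B : κ → Fin d → ℚ, ∀ q ∈ E j, ∃ t : Fin d → ℚ, ∀ k, q k = ∑ l, B k l * t l :=
    fun j => exists_param (E j) (hE j)
  choose B hB using h1
  have h2 : ∀ J : Finset κ, ∃ P : MvPolynomial (Fin s × κ) ℚ, P ≠ 0 ∧
      (J.card = Fintype.card κ - d - 1 → ∀ y : Fin s × κ → ℚ,
      (∃ A : κ → κ → ℚ, ∃ w : Fin s → κ → ℚ, ∃ t : Fin s → Fin d → ℚ,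
        (∀ j, ∀ k ∉ J, w j k = ∑ i ∈ J, A k i * w j i) ∧
        ∀ j k, y (j, k) = w j k - q0 j k - ∑ l, B j k l * t j l) → eval y P = 0) := by
    intro J
    by_cases hJ : J.card = Fintype.card κ - d - 1
    · obtain ⟨P, hP, hP'⟩ := exists_poly_chart hd hs J hJ q0 B
      exact ⟨P, hP, fun _ => hP'⟩
    · exact ⟨1, one_ne_zero, fun h => absurd h hJ⟩
  choose P hP hP' using h2
  refine ⟨∏ J : Finset κ, P J, Finset.prod_ne_zero_iff.mpr fun J _ => hP J, ?_⟩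
  rintro y ⟨U, hU, hy⟩
  obtain ⟨J, hJ, A, hA⟩ := exists_chart (r := Fintype.card κ - d - 1) (by omega) U hU
  choose u hu q hq hyq using hy
  have h3 : ∀ j, ∃ t : Fin d → ℚ, ∀ k, q j k = ∑ l, B j k l * t l := fun j => hB j (q j) (hq j)
  choose t ht using h3
  rw [map_prod]
  apply Finset.prod_eq_zero (Finset.mem_univ J)
  apply hP' J hJ y
  refine ⟨A, u, t, fun j k _ => hA (u j) (hu j) k, fun j k => ?_⟩
  rw [hyq j k, ht j k]

/-- The polynomial for finitely many possible affine spaces at every place. The affine spaces are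
given by linear equations, one for every set `I` of `d + 1` coordinates, with `(a, b)` in a
finite set `S j I` of pairs. -/
theorem exists_poly {d s : ℕ} (hd : d + 1 ≤ Fintype.card κ)
    (hs : (d + 1) * (Fintype.card κ - d - 1) < s)
    (S : Fin s → Finset κ → Finset ((κ → ℚ) × ℚ))
    (hS : ∀ j I, I.card = d + 1 → ∀ ab ∈ S j I, ∃ i ∈ I, ab.1 i ≠ 0) :
    ∃ P : MvPolynomial (Fin s × κ) ℚ, P ≠ 0 ∧ ∀ y : Fin s × κ → ℚ,
      (∃ U : Submodule ℚ (κ → ℚ), Module.finrank ℚ U ≤ Fintype.card κ - d - 1 ∧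
        ∀ j, ∃ u ∈ U, ∃ q : κ → ℚ, (∀ k, y (j, k) = u k - q k) ∧
          ∀ I : Finset κ, I.card = d + 1 → ∃ ab ∈ S j I, ∑ i ∈ I, ab.1 i * q i = ab.2) →
      eval y P = 0 := by
  classical
  -- types: a choice of a pair for all j, I
  let Ty : Type := ∀ jI : Fin s × {I : Finset κ // I.card = d + 1}, {ab // ab ∈ S jI.1 jI.2.1}
  let Eq : Ty → Fin s → Submodule ℚ (κ → ℚ) := fun τ j =>
    { carrier := {q | ∀ I : {I : Finset κ // I.card = d + 1}, ∑ i ∈ I.1, (τ (j, I)).1.1 i * q i = 0}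
      zero_mem' := by intro I; simp
      add_mem' := by
        intro q q' hq hq' I
        have h1 := hq I
        have h2 := hq' I
        simp only [Pi.add_apply, mul_add, Finset.sum_add_distrib]
        rw [h1, h2, add_zero]
      smul_mem' := by
        intro c q hq I
        have h1 := hq I
        simp only [Pi.smul_apply, smul_eq_mul]
        have h2 : ∑ i ∈ I.1, (τ (j, I)).1.1 i * (c * q i) =
            c * ∑ i ∈ I.1, (τ (j, I)).1.1 i * q i := by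
          rw [Finset.mul_sum]
          exact Finset.sum_congr rfl fun i _ => by ring
        rw [h2, h1, mul_zero] }
  have hfr : ∀ τ j, Module.finrank ℚ (Eq τ j) ≤ d := by
    intro τ j
    apply finrank_le_of_rel
    intro I hI
    refine ⟨(τ (j, ⟨I, hI⟩)).1.1, hS j I hI _ (τ (j, ⟨I, hI⟩)).2, ?_⟩
    intro q hq
    exact hq ⟨I, hI⟩
  -- base points
  let Q : Ty → Fin s → Set (κ → ℚ) := fun τ j =>
    {q | ∀ I : {I : Finset κ // I.card = d + 1}, ∑ i ∈ I.1, (τ (j, I)).1.1 i * q i = (τ (j, I)).1.2}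
  let q0 : Ty → Fin s → κ → ℚ := fun τ j =>
    if h : (Q τ j).Nonempty then h.some else 0
  have h1 : ∀ τ : Ty, ∃ P : MvPolynomial (Fin s × κ) ℚ, P ≠ 0 ∧ ∀ y : Fin s × κ → ℚ,
      (∃ U : Submodule ℚ (κ → ℚ), Module.finrank ℚ U ≤ Fintype.card κ - d - 1 ∧
        ∀ j, ∃ u ∈ U, ∃ q ∈ Eq τ j, ∀ k, y (j, k) = u k - q0 τ j k - q k) → eval y P = 0 :=
    fun τ => exists_poly_affine hd hs (q0 τ) (Eq τ) (hfr τ)
  choose P hP hP' using h1
  have hfin : Finite Ty := inferInstance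
  have := Fintype.ofFinite Ty
  refine ⟨∏ τ : Ty, P τ, Finset.prod_ne_zero_iff.mpr fun τ _ => hP τ, ?_⟩
  rintro y ⟨U, hU, hy⟩
  choose u hu q hyq hab using hy
  let τ : Ty := fun jI => ⟨(hab jI.1 jI.2.1 jI.2.2).choose, (hab jI.1 jI.2.1 jI.2.2).choose_spec.1⟩
  have hτ : ∀ j (I : {I : Finset κ // I.card = d + 1}),
      ∑ i ∈ I.1, (τ (j, I)).1.1 i * q j i = (τ (j, I)).1.2 := by
    intro j I
    exact (hab j I.1 I.2).choose_spec.2
  rw [map_prod]
  apply Finset.prod_eq_zero (Finset.mem_univ τ)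
  apply hP' τ y
  refine ⟨U, hU, fun j => ⟨u j, hu j, q j - q0 τ j, ?_, ?_⟩⟩
  · intro I
    have hne : (Q τ j).Nonempty := ⟨q j, fun I => hτ j I⟩
    have h2 : q0 τ j ∈ Q τ j := by
      simp only [q0]
      rw [dif_pos hne]
      exact hne.some_mem
    have h3 := h2 I
    have h4 := hτ j I
    simp only [Pi.sub_apply, mul_sub, Finset.sum_sub_distrib]
    rw [h3, h4, sub_self]
  · intro k
    rw [hyq j k]
    simp only [Pi.sub_apply]
    ring

end Pool.Agent.MP_dd1803_nt.Tr
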