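import Mathlib

open MvPolynomial TensorProduct

namespace Pool.Agent.MP_dd1803_nt.Tr

/-- A rational functional on a torsion free group. -/
theorem exists_functional {G : Type} [AddCommGroup G] (γ : G) (hγ : ∀ n : ℤ, n • γ = 0 → n = 0) :
    ∃ f : G →+ ℚ, f γ = 1 := by
  let i : ℤ →ₗ[ℤ] G := LinearMap.toSpanSingleton ℤ G γ
  have hi : Function.Injective i := by
    rw [injective_iff_map_eq_zero]
    intro n hn
    exact hγ n hn
  have h1 : Function.Injective (LinearMap.lTensor ℚ i) :=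
    Module.Flat.lTensor_preserves_injective_linearMap i hi
  have h2 : (1 : ℚ) ⊗ₜ[ℤ] γ ≠ 0 := by
    have h3 : LinearMap.lTensor ℚ i ((1 : ℚ) ⊗ₜ[ℤ] (1 : ℤ)) = (1 : ℚ) ⊗ₜ[ℤ] γ := by
      simp [i]
    rw [← h3, ← map_zero (LinearMap.lTensor ℚ i)]
    intro h4
    have h5 := h1 h4
    have h6 := congrArg (TensorProduct.rid ℤ ℚ) h5
    simp at h6
  obtain ⟨f, hf⟩ : ∃ f : (ℚ ⊗[ℤ] G) →ₗ[ℚ] ℚ, f ((1 : ℚ) ⊗ₜ[ℤ] γ) ≠ 0 := by
    by_contra hcon
    push Not at hcon
    exact h2 ((Module.forall_dual_apply_eq_zero_iff ℚ _).mp hcon)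
  let g : G →+ ℚ :=
    { toFun := fun x => (f ((1 : ℚ) ⊗ₜ[ℤ] γ))⁻¹ * f ((1 : ℚ) ⊗ₜ[ℤ] x)
      map_zero' := by simp
      map_add' := by
        intro x y
        rw [TensorProduct.tmul_add, map_add, mul_add] }
  exact ⟨g, inv_mul_cancel₀ hf⟩

/-- There is a valuation subring of `ℂ` in which `p` is not a unit. -/
theorem exists_valuationSubring (p : ℕ) (hp : p.Prime) :
    ∃ B : ValuationSubring ℂ, B.valuation (p : ℂ) < 1 := by
  let A : Subring ℂ := ⊥
  let π : A := ⟨(p : ℂ), natCast_mem _ p⟩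
  have hI : Ideal.span {π} ≠ ⊤ := by
    intro h
    rw [Ideal.eq_top_iff_one, Ideal.mem_span_singleton] at h
    obtain ⟨⟨c, hc⟩, h⟩ := h
    rw [Subring.mem_bot] at hc
    obtain ⟨n, rfl⟩ := hc
    have h1 : (1 : ℂ) = (p : ℂ) * (n : ℂ) := congrArg Subtype.val h
    have h2 : (1 : ℤ) = (p : ℤ) * n := by exact_mod_cast h1
    have h3 : (p : ℤ) ∣ 1 := ⟨n, h2⟩
    have h4 := Int.natCast_dvd_natCast.mp (by exact_mod_cast h3 : ((p : ℕ) : ℤ) ∣ ((1 : ℕ) : ℤ))
    exact hp.one_lt.ne' (Nat.dvd_one.mp h4)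
  obtain ⟨B, _, hB⟩ := Ideal.image_subset_nonunits_valuationSubring (Ideal.span {π}) hI
  refine ⟨B, ?_⟩
  have h1 : (p : ℂ) ∈ B.nonunits := hB ⟨π, Ideal.subset_span rfl, rfl⟩
  exact (ValuationSubring.mem_nonunits_iff (A := B)).mp h1

theorem exists_nu (p : ℕ) (hp : p.Prime) :
    ∃ ν : ℂˣ → ℚ, (∀ x y, ν (x * y) = ν x + ν y) ∧
      (∀ (ι : Type) (S : Finset ι) (z : ι → ℂˣ), S.Nonempty → ∑ i ∈ S, (z i : ℂ) = 0 →
        ∃ i ∈ S, ∃ j ∈ S, i ≠ j ∧ ν (z i) = ν (z j)) ∧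
      ∀ g : ℚˣ, ν (Units.map (algebraMap ℚ ℂ : ℚ →* ℂ) g) = padicValRat p (g : ℚ) := by
  classical
  obtain ⟨B, hB⟩ := exists_valuationSubring p hp
  let v := B.valuation
  let vu : ℂˣ →* (B.ValueGroup)ˣ := Units.map (v : ℂ →* B.ValueGroup)
  have hvu : ∀ x : ℂˣ, ((vu x : (B.ValueGroup)ˣ) : B.ValueGroup) = v x := fun x => rfl
  have hpC : (p : ℂ) ≠ 0 := Nat.cast_ne_zero.mpr hp.ne_zero
  let π : ℂˣ := Units.mk0 (p : ℂ) hpC
  have hπ : v (π : ℂ) < 1 := hB
  have hγ : ∀ n : ℤ, n • Additive.ofMul (vu π) = 0 → n = 0 := by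
    intro n hn
    have h1 : vu π ^ n = 1 := by
      rw [← ofMul_zpow] at hn
      exact Additive.ofMul.injective hn
    have h2 : v (π : ℂ) ^ n = 1 := by
      have h3 := congrArg (Units.val) h1
      rw [Units.val_zpow_eq_zpow_val] at h3
      exact h3
    have hpos : 0 < v (π : ℂ) := zero_lt_iff.mpr ((Valuation.ne_zero_iff v).mpr π.ne_zero)
    by_contra hne
    rcases lt_or_gt_of_ne hne with h | h
    · exact absurd h2 (one_lt_zpow_of_neg₀ hpos hπ h).ne'
    · exact absurd h2 (zpow_lt_one₀ hpos hπ h).ne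
  obtain ⟨f, hf⟩ := exists_functional (Additive.ofMul (vu π)) hγ
  refine ⟨fun x => f (Additive.ofMul (vu x)), ?_, ?_, ?_⟩
  · intro x y
    beta_reduce
    rw [map_mul, ofMul_mul, map_add]
  · intro ι S z hS hsum
    obtain ⟨i0, hi0, hmax⟩ := S.exists_max_image (fun i => v (z i : ℂ)) hS
    by_cases hex : ∃ j ∈ S, i0 ≠ j ∧ v (z i0 : ℂ) = v (z j : ℂ)
    · obtain ⟨j, hj, hne, h⟩ := hex
      refine ⟨i0, hi0, j, hj, hne, ?_⟩
      have h1 : vu (z i0) = vu (z j) := Units.ext h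
      beta_reduce
      rw [h1]
    · exfalso
      push Not at hex
      have h1 : ∀ j ∈ S.erase i0, v (z j : ℂ) < v (z i0 : ℂ) := by
        intro j hj
        rw [Finset.mem_erase] at hj
        exact lt_of_le_of_ne (hmax j hj.2) (Ne.symm (hex j hj.2 (Ne.symm hj.1)))
      have h0 : v (z i0 : ℂ) ≠ 0 := (Valuation.ne_zero_iff v).mpr (z i0).ne_zero
      have h2 : v (∑ j ∈ S.erase i0, (z j : ℂ)) < v (z i0 : ℂ) := Valuation.map_sum_lt v h0 h1
      have h3 : ∑ j ∈ S.erase i0, (z j : ℂ) = -(z i0 : ℂ) := by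
        rw [← Finset.add_sum_erase S _ hi0] at hsum
        exact eq_neg_of_add_eq_zero_right hsum
      rw [h3, Valuation.map_neg] at h2
      exact lt_irrefl _ h2
  · -- integers are in the ring
    have hint : ∀ n : ℤ, v (n : ℂ) ≤ 1 := by
      intro n
      rw [ValuationSubring.valuation_le_one_iff]
      exact intCast_mem _ n
    have hcop : ∀ n : ℤ, ¬ (p : ℤ) ∣ n → v (n : ℂ) = 1 := by
      intro n hn
      by_contra hne
      have h1 : v (n : ℂ) < 1 := lt_of_le_of_ne (hint n) hne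
      have h2 : IsCoprime (p : ℤ) n := (Prime.coprime_iff_not_dvd (Nat.prime_iff_prime_int.mp hp)).mpr hn
      obtain ⟨a, b, hab⟩ := h2
      have h3 : (a : ℂ) * (p : ℂ) + (b : ℂ) * (n : ℂ) = 1 := by exact_mod_cast congrArg (Int.cast : ℤ → ℂ) hab
      have h4 : v ((a : ℂ) * (p : ℂ)) < 1 := by
        rw [map_mul]
        exact mul_lt_one_of_nonneg_of_lt_one_right (hint a) zero_le' hπ
      have h5 : v ((b : ℂ) * (n : ℂ)) < 1 := by
        rw [map_mul]
        exact mul_lt_one_of_nonneg_of_lt_one_right (hint b) zero_le' h1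
      have h6 := Valuation.map_add_lt v h4 h5
      rw [h3, map_one] at h6
      exact lt_irrefl _ h6
    -- natural numbers
    have hnat : ∀ n : ℕ, n ≠ 0 → ∀ hn : (n : ℂ) ≠ 0,
        f (Additive.ofMul (vu (Units.mk0 (n : ℂ) hn))) = (padicValNat p n : ℚ) := by
      intro n hn0 hn
      have := Fact.mk hp
      obtain ⟨m, hm⟩ := pow_padicValNat_dvd (p := p) (n := n)
      have hmd : ¬ (p : ℤ) ∣ (m : ℤ) := by
        intro hdvd
        rw [Int.natCast_dvd_natCast] at hdvd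
        obtain ⟨c, rfl⟩ := hdvd
        have h1 : p ^ (padicValNat p n + 1) ∣ n := by
          refine ⟨c, ?_⟩
          rw [pow_succ, mul_assoc]
          exact hm
        rw [padicValNat_dvd_iff_le hn0] at h1
        omega
      have h1 : v (m : ℂ) = 1 := by
        have := hcop m hmd
        simpa using this
      have hm0 : (m : ℂ) ≠ 0 := by
        intro h
        rw [h, map_zero] at h1
        exact zero_ne_one h1
      have h2 : vu (Units.mk0 (n : ℂ) hn) = vu π ^ padicValNat p n := by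
        apply Units.ext
        rw [Units.val_pow_eq_pow_val, hvu, hvu]
        have h3 : ((Units.mk0 (n : ℂ) hn : ℂˣ) : ℂ) = (p : ℂ) ^ padicValNat p n * (m : ℂ) := by
          rw [Units.val_mk0]
          exact_mod_cast congrArg (Nat.cast : ℕ → ℂ) hm
        rw [h3, map_mul, h1, mul_one, map_pow]
        rfl
      rw [h2, ofMul_pow, map_nsmul, hf]
      simp
    intro g
    have := Fact.mk hp
    have hg : (g : ℚ) ≠ 0 := g.ne_zero
    have hnum : ((g : ℚ).num.natAbs : ℂ) ≠ 0 := by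
      rw [Nat.cast_ne_zero, Int.natAbs_ne_zero]
      exact Rat.num_ne_zero.mpr hg
    have hden : ((g : ℚ).den : ℂ) ≠ 0 := Nat.cast_ne_zero.mpr (g : ℚ).den_ne_zero
    have h1 : vu (Units.map (algebraMap ℚ ℂ : ℚ →* ℂ) g) * vu (Units.mk0 _ hden) =
        vu (Units.mk0 _ hnum) := by
      apply Units.ext
      rw [Units.val_mul, hvu, hvu, hvu, ← map_mul]
      simp only [Units.coe_map, Units.val_mk0]
      have h2 : (algebraMap ℚ ℂ (g : ℚ)) * ((g : ℚ).den : ℂ) = ((g : ℚ).num : ℂ) := by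
        have h3 := Rat.mul_den_eq_num (g : ℚ)
        have h4 := congrArg (algebraMap ℚ ℂ) h3
        rw [map_mul] at h4
        simpa using h4
      have h5 : v ((g : ℚ).num : ℂ) = v (((g : ℚ).num.natAbs : ℕ) : ℂ) := by
        rcases Int.natAbs_eq (g : ℚ).num with h | h
        · conv_lhs => rw [h]
          simp
        · conv_lhs => rw [h]
          rw [Int.cast_neg, Valuation.map_neg]
          simp
      rw [← h5, ← h2]
      rfl
    have h2 := congrArg (fun x => f (Additive.ofMul x)) h1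
    simp only [ofMul_mul, map_add] at h2
    rw [hnat _ (g : ℚ).den_ne_zero hden, hnat _ (Int.natAbs_ne_zero.mpr (Rat.num_ne_zero.mpr hg)) hnum] at h2
    show f (Additive.ofMul (vu (Units.map (algebraMap ℚ ℂ : ℚ →* ℂ) g))) = _
    rw [padicValRat, padicValInt]
    rw [Int.cast_sub, Int.cast_natCast, Int.cast_natCast]
    exact eq_sub_of_add_eq h2

end Pool.Agent.MP_dd1803_nt.Tr
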