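import Mathlib
import Pool.Agent.MP_dd1803_nt.Tr.Poly
import Pool.Agent.MP_dd1803_nt.Tr.Val
import Pool.Agent.MP_dd1803_nt.Tr.Point

open MvPolynomial

namespace Pool.Agent.MP_dd1803_nt.Tr

section

variable {F : Type} [Field F] {κ : Type} [Fintype κ] [DecidableEq κ]

/-- Any `d + 1` coordinates are dependent on a closed set of dimension at most `d`. -/
theorem exists_dep {V : Set (κ → Fˣ)} (hV : ZClosed V) {d : ℕ}
    (hd : ∀ Z, Irr Z → Z ⊆ V → td F Z ≤ d) (I : Finset κ) (hI : I.card = d + 1) :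
    ∃ p : MvPolynomial I F, p ≠ 0 ∧ ∀ x ∈ V, aeval (fun i : I => co x i) p = 0 := by
  classical
  obtain ⟨S, hS, hVS⟩ := exists_decomp V hV
  have h1 : ∀ Z ∈ S, ∃ p : MvPolynomial I F, p ≠ 0 ∧
      ∀ x ∈ Z, aeval (fun i : I => co x i) p = 0 := by
    intro Z hZ
    by_contra hcon
    push Not at hcon
    have h2 : Ind F Z (I : Set κ) := by
      intro p hp
      by_contra hne
      obtain ⟨x, hx, hne'⟩ := hcon p hne
      exact hne' (hp x hx)
    have h3 := h2.ncard_le (hS Z hZ).pirr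
    rw [Set.ncard_coe_finset, hI] at h3
    have h4 := hd Z (hS Z hZ) (by
      rw [hVS]
      exact Set.subset_biUnion_of_mem (u := fun Z => Z) hZ)
    omega
  choose! p hp hp0 using h1
  refine ⟨∏ Z ∈ S, p Z, Finset.prod_ne_zero_iff.mpr hp, ?_⟩
  intro x hx
  rw [hVS] at hx
  obtain ⟨Z, hZ, hxZ⟩ := Set.mem_iUnion₂.mp hx
  rw [map_prod]
  exact Finset.prod_eq_zero hZ (hp0 Z hZ x hxZ)

/-- The rational annihilator of a lattice of rank `ρ` has dimension at most `n - ρ`. -/
theorem finrank_ann (L : Submodule ℤ (κ → ℤ)) (U : Submodule ℚ (κ → ℚ))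
    (hU : ∀ u ∈ U, ∀ m ∈ L, ∑ k, (m k : ℚ) * u k = 0) :
    Module.finrank ℚ U + Module.finrank ℤ L ≤ Fintype.card κ := by
  classical
  let b := Module.finBasis ℤ L
  let M : Matrix (Fin (Module.finrank ℤ L)) κ ℚ := Matrix.of fun i k => ((b i : κ → ℤ) k : ℚ)
  have hli : LinearIndependent ℤ (fun i => (b i : κ → ℤ)) :=
    b.linearIndependent.map' L.subtype (Submodule.ker_subtype L)
  have hliQ : LinearIndependent ℚ M.row := by
    rw [← LinearIndependent.iff_fractionRing ℤ ℚ]
    have hinj : Function.Injective (fun (m : κ → ℤ) (k : κ) => (m k : ℚ)) := by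
      intro m n h
      funext k
      exact Int.cast_injective (α := ℚ) (congrFun h k)
    let f : (κ → ℤ) →ₗ[ℤ] (κ → ℚ) :=
      { toFun := fun m k => (m k : ℚ)
        map_add' := by intro m n; funext k; simp
        map_smul' := by intro c m; funext k; simp }
    exact hli.map' f (LinearMap.ker_eq_bot.mpr hinj)
  have hrank : M.rank = Module.finrank ℤ L := by
    have h := hliQ.rank_matrix
    rwa [Fintype.card_fin] at h
  have h1 : U ≤ LinearMap.ker M.mulVecLin := by
    intro u hu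
    rw [LinearMap.mem_ker]
    funext i
    exact hU u hu (b i) (b i).2
  have h2 := Submodule.finrank_mono h1
  have h3 := LinearMap.finrank_range_add_finrank_ker M.mulVecLin
  rw [Module.finrank_fintype_fun_eq_card] at h3
  have h4 : M.rank = Module.finrank ℚ (LinearMap.range M.mulVecLin) := rfl
  omega

end

variable {κ : Type} [Fintype κ] [DecidableEq κ]

/-- The rational translates of `V` by vectors with valuations outside a hypersurface have no
atypical subvarieties. -/
theorem main (V : Set (κ → ℂˣ)) (hV : ZClosed V) (d : ℕ) (hd : dm V = (d : WithBot ℕ∞))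
    {s : ℕ} (hs : (d + 1) * (Fintype.card κ - d - 1) < s)
    (p : Fin s → ℕ) (hp : ∀ j, (p j).Prime) :
    ∃ P : MvPolynomial (Fin s × κ) ℚ, P ≠ 0 ∧ ∀ g : κ → ℚˣ,
      eval (fun jk => (padicValRat (p jk.1) (g jk.2 : ℚ) : ℚ)) P ≠ 0 →
      ∀ X, ¬ Atypical (tr (fun i => Units.map (algebraMap ℚ ℂ : ℚ →* ℂ) (g i)) '' V) X := by
  classical
  have hne : V.Nonempty := by
    by_contra hcon
    rw [Set.not_nonempty_iff_eq_empty] at hcon
    have h1 : dm V = ⊥ := by
      unfold dm
      rw [Order.krullDim_eq_bot_iff]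
      constructor
      rintro ⟨Y, hY, hYV⟩
      rw [hcon] at hYV
      obtain ⟨y, hy⟩ := hY.nonempty
      exact hYV hy
    rw [h1] at hd
    exact absurd hd (WithBot.bot_ne_coe)
  obtain ⟨d', hd', hdn, hmax, _⟩ := exists_dm hne
  have hdd : d' = d := by
    rw [hd'] at hd
    exact_mod_cast hd
  subst hdd
  -- atypical subvarieties give points of large rank
  have hat : ∀ (g : κ → ℂˣ) (X : Set (κ → ℂˣ)), Atypical (tr g '' V) X →
      ∃ x ∈ tr g '' V, d' + 1 ≤ rk {x} := by
    rintro g X ⟨T, hT, hX, hlt⟩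
    rw [dm_image_tr, hd', dm_irr hT.irr, dm_irr hX.irr, dm_univ] at hlt
    have h2 : d' + td ℂ T < td ℂ X + Fintype.card κ := by exact_mod_cast hlt
    have h3 := hT.cd
    have h4 : rk T ≤ rk X := rk_anti (hX.subset.trans Set.inter_subset_right)
    obtain ⟨x, hx, hxr⟩ := exists_point hX.irr
    refine ⟨x, (hX.subset hx).1, ?_⟩
    unfold Pool.Agent.MP_dd1803_nt.cd at *
    omega
  by_cases hdk : d' + 1 ≤ Fintype.card κ
  swap
  · refine ⟨1, one_ne_zero, ?_⟩
    intro g _ X hX
    obtain ⟨x, _, hx⟩ := hat _ X hX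
    have h1 : rk ({x} : Set (κ → ℂˣ)) ≤ Fintype.card κ := by
      have h2 : Module.finrank ℤ (Lam ({x} : Set (κ → ℂˣ))) ≤ Module.finrank ℤ (κ → ℤ) :=
        Submodule.finrank_le _
      rw [Module.finrank_fintype_fun_eq_card] at h2
      exact h2
    omega
  have hν := fun j => exists_nu (p j) (hp j)
  choose ν hνmul hνN hνQ using hν
  have hdep : ∀ I : {I : Finset κ // I.card = d' + 1}, ∃ q : MvPolynomial I.1 ℂ, q ≠ 0 ∧
      ∀ x ∈ V, aeval (fun i : I.1 => co x i) q = 0 := fun I => exists_dep hV hmax I.1 I.2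
  choose f hf hf0 using hdep
  -- the finite set of possible equations
  let pr : Fin s → ∀ I : {I : Finset κ // I.card = d' + 1},
      (I.1 →₀ ℕ) × (I.1 →₀ ℕ) → (κ → ℚ) × ℚ := fun j I mm =>
    (fun i => if hi : i ∈ I.1 then ((mm.1 ⟨i, hi⟩ : ℚ) - (mm.2 ⟨i, hi⟩ : ℚ)) else 0,
      (if h : (f I).coeff mm.2 ≠ 0 then ν j (Units.mk0 _ h) else 0) -
      (if h : (f I).coeff mm.1 ≠ 0 then ν j (Units.mk0 _ h) else 0))
  let S : Fin s → Finset κ → Finset ((κ → ℚ) × ℚ) := fun j I =>
    if hI : I.card = d' + 1 then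
      (((f ⟨I, hI⟩).support ×ˢ (f ⟨I, hI⟩).support).filter fun mm => mm.1 ≠ mm.2).image
        (pr j ⟨I, hI⟩)
    else ∅
  have hS : ∀ j I, I.card = d' + 1 → ∀ ab ∈ S j I, ∃ i ∈ I, ab.1 i ≠ 0 := by
    intro j I hI ab hab
    simp only [S] at hab
    rw [dif_pos hI, Finset.mem_image] at hab
    obtain ⟨mm, hmm, rfl⟩ := hab
    rw [Finset.mem_filter] at hmm
    have h1 : ∃ i : I, mm.1 i ≠ mm.2 i := by
      by_contra hcon
      push Not at hcon
      exact hmm.2 (Finsupp.ext hcon)
    obtain ⟨i, hi⟩ := h1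
    refine ⟨i.1, i.2, ?_⟩
    simp only [pr]
    rw [dif_pos i.2, sub_ne_zero]
    exact_mod_cast hi
  obtain ⟨P, hP, hP'⟩ := exists_poly hdk hs S hS
  refine ⟨P, hP, ?_⟩
  intro g hg X hX
  apply hg
  apply hP'
  obtain ⟨x, ⟨y, hy, rfl⟩, hx⟩ := hat _ X hX
  set γ : κ → ℂˣ := fun i => Units.map (algebraMap ℚ ℂ : ℚ →* ℂ) (g i) with hγ
  -- general facts about ν
  have hν1 : ∀ j, ν j 1 = 0 := by
    intro j
    have := hνmul j 1 1
    rw [mul_one] at this
    linarith
  have hνpow : ∀ j (a : ℂˣ) (n : ℕ), ν j (a ^ n) = n * ν j a := by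
    intro j a n
    induction n with
    | zero => simp [hν1]
    | succ n ih =>
      rw [pow_succ, hνmul, ih]
      push_cast
      ring
  have hνinv : ∀ j (a : ℂˣ), ν j a⁻¹ = - ν j a := by
    intro j a
    have := hνmul j a a⁻¹
    rw [mul_inv_cancel, hν1] at this
    linarith
  have hνzpow : ∀ j (a : ℂˣ) (n : ℤ), ν j (a ^ n) = n * ν j a := by
    intro j a n
    rcases Int.natAbs_eq n with h | h
    · rw [h, zpow_natCast, hνpow]
      simp
    · rw [h, zpow_neg, zpow_natCast, hνinv, hνpow]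
      simp
  have hνprod : ∀ j {ι : Type} (s : Finset ι) (a : ι → ℂˣ), ν j (∏ i ∈ s, a i) =
      ∑ i ∈ s, ν j (a i) := by
    intro j ι s a
    induction s using Finset.induction_on with
    | empty => simp [hν1]
    | insert i s hi ih => rw [Finset.prod_insert hi, Finset.sum_insert hi, hνmul, ih]
  have hνtor : ∀ j (a : ℂˣ) (n : ℕ), 0 < n → a ^ n = 1 → ν j a = 0 := by
    intro j a n hn h
    have h1 := hνpow j a n
    rw [h, hν1] at h1
    have h2 : (n : ℚ) ≠ 0 := by positivity
    exact (mul_eq_zero.mp h1.symm).resolve_left h2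
  let U : Submodule ℚ (κ → ℚ) :=
    { carrier := {u | ∀ m ∈ Lam ({tr γ y} : Set (κ → ℂˣ)), ∑ k, (m k : ℚ) * u k = 0}
      zero_mem' := by intro m _; simp
      add_mem' := by
        intro u u' hu hu' m hm
        simp only [Pi.add_apply, mul_add, Finset.sum_add_distrib]
        rw [hu m hm, hu' m hm, add_zero]
      smul_mem' := by
        intro c u hu m hm
        have h1 : ∑ k, (m k : ℚ) * (c • u) k = c * ∑ k, (m k : ℚ) * u k := by
          rw [Finset.mul_sum]
          refine Finset.sum_congr rfl fun k _ => ?_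
          simp only [Pi.smul_apply, smul_eq_mul]
          ring
        rw [h1, hu m hm, mul_zero] }
  refine ⟨U, ?_, ?_⟩
  · have h1 := finrank_ann (Lam ({tr γ y} : Set (κ → ℂˣ))) U (fun u hu => hu)
    have h2 : d' + 1 ≤ Module.finrank ℤ (Lam ({tr γ y} : Set (κ → ℂˣ))) := hx
    omega
  · intro j
    refine ⟨fun k => ν j (tr γ y k), ?_, fun k => ν j (y k), ?_, ?_⟩
    · intro m hm
      obtain ⟨N, hN, h⟩ := hm
      have h1 := h _ rfl
      have h2 := hνtor j _ N hN h1
      unfold ch at h2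
      rw [hνprod] at h2
      rw [← h2]
      refine Finset.sum_congr rfl fun k _ => ?_
      rw [hνzpow]
    · intro k
      show (padicValRat (p j) (g k : ℚ) : ℚ) = ν j (γ k * y k) - ν j (y k)
      rw [hνmul, ← hνQ j (g k)]
      ring
    · intro I hI
      have h0 := hf0 ⟨I, hI⟩ y hy
      rw [aeval_def, eval₂_eq'] at h0
      let z : (I →₀ ℕ) → ℂˣ := fun m =>
        if h : (f ⟨I, hI⟩).coeff m ≠ 0 then Units.mk0 _ h * ∏ i : I, y i ^ m i else 1
      have h1 : ∑ m ∈ (f ⟨I, hI⟩).support, (z m : ℂ) = 0 := by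
        rw [← h0]
        refine Finset.sum_congr rfl fun m hm => ?_
        have h2 : (f ⟨I, hI⟩).coeff m ≠ 0 := mem_support_iff.mp hm
        simp only [z]
        rw [dif_pos h2]
        simp [co]
      have h2 : (f ⟨I, hI⟩).support.Nonempty := by
        rw [Finset.nonempty_iff_ne_empty, Ne, MvPolynomial.support_eq_empty]
        exact hf ⟨I, hI⟩
      obtain ⟨m, hm, m', hm', hne', hνe⟩ := hνN j _ _ z h2 h1
      refine ⟨pr j ⟨I, hI⟩ (m, m'), ?_, ?_⟩
      · simp only [S]
        rw [dif_pos hI, Finset.mem_image]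
        refine ⟨(m, m'), ?_, rfl⟩
        rw [Finset.mem_filter, Finset.mem_product]
        exact ⟨⟨hm, hm'⟩, hne'⟩
      · have hc : (f ⟨I, hI⟩).coeff m ≠ 0 := mem_support_iff.mp hm
        have hc' : (f ⟨I, hI⟩).coeff m' ≠ 0 := mem_support_iff.mp hm'
        have h3 : ν j (Units.mk0 _ hc) + ∑ i : I, (m i : ℚ) * ν j (y i) =
            ν j (Units.mk0 _ hc') + ∑ i : I, (m' i : ℚ) * ν j (y i) := by
          have h4 : ∀ (n : I →₀ ℕ) (hn : (f ⟨I, hI⟩).coeff n ≠ 0),
              ν j (z n) = ν j (Units.mk0 _ hn) + ∑ i : I, (n i : ℚ) * ν j (y i) := by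
            intro n hn
            simp only [z]
            rw [dif_pos hn, hνmul, hνprod]
            congr 1
            refine Finset.sum_congr rfl fun i _ => ?_
            rw [hνpow]
          rw [← h4 m hc, ← h4 m' hc', hνe]
        have h5 : ∑ i ∈ I, (pr j ⟨I, hI⟩ (m, m')).1 i * ν j (y i) =
            ∑ i : I, ((m i : ℚ) - (m' i : ℚ)) * ν j (y i) := by
          rw [← Finset.sum_coe_sort I]
          refine Finset.sum_congr rfl fun i _ => ?_
          simp only [pr]
          rw [dif_pos i.2]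
        rw [h5]
        simp only [pr]
        rw [dif_pos hc, dif_pos hc']
        simp only [sub_mul, Finset.sum_sub_distrib]
        linarith

end Pool.Agent.MP_dd1803_nt.Tr
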